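import Mathlib
import Pool.Agent.H821R4.BallC

/-! A non-admissible irreducible representation of `SL(4,ℝ)` admitting a non-trivial invariant
continuous Minkowski valuation. -/

namespace Pool.Agent.Results.MP_05553e_gt.NonAdmissible

open Set Metric MeasureTheory Filter Topology Matrix Pool.Agent.H821R4 Pool.Agent.H821R4.Stmt

lemma isB (K : K0 4) : IsB (K.1 : Set (V 4)) := ⟨K.1.isCompact, K.1.convex, K.2⟩

/-- the valuation -/
noncomputable def Phi (K : K0 4) : ConvexBody Rep.W :=
  ⟨{φ (K.1 : Set (V 4))}, convex_singleton _, isCompact_singleton, singleton_nonempty _⟩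

lemma Phi_coe (K : K0 4) : (Phi K : Set Rep.W) = {φ (K.1 : Set (V 4))} := rfl

lemma Phi_val : IsMinkowskiValuation Phi := by
  intro K L U I hU hI
  apply ConvexBody.ext
  rw [ConvexBody.coe_add, ConvexBody.coe_add, Phi_coe, Phi_coe, Phi_coe, Phi_coe,
    Set.singleton_add_singleton, Set.singleton_add_singleton, hU, hI,
    φ_val (isB K) (isB L) (hU ▸ isB U)]

lemma Phi_inv : IsInvariantMap Rep.rho Phi := by
  intro g K L h
  rw [Phi_coe, Phi_coe, image_singleton, h]
  congr 1
  exact φ_equi (isB K) g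

lemma Phi_cont : Continuous Phi := by
  rw [continuous_iff_seqContinuous]
  intro K L hKL
  have hd : Tendsto (fun j => dist (K j) L) atTop (𝓝 0) := tendsto_iff_dist_tendsto_zero.1 hKL
  have hδ : Tendsto (fun j : ℕ => dist (K j) L + 1 / ((j : ℝ) + 1)) atTop (𝓝 0) := by
    have := hd.add tendsto_one_div_add_atTop_nhds_zero_nat
    simpa using this
  have hc : ∀ j : ℕ, Close (dist (K j) L + 1 / ((j : ℝ) + 1)) ((K j).1 : Set (V 4))
      (L.1 : Set (V 4)) := by
    intro j
    have hlt : hausdorffDist ((K j).1 : Set (V 4)) (L.1 : Set (V 4)) <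
        dist (K j) L + 1 / ((j : ℝ) + 1) := by
      have h1 : hausdorffDist ((K j).1 : Set (V 4)) (L.1 : Set (V 4)) = dist (K j) L := rfl
      rw [h1]
      have : (0:ℝ) < 1 / ((j : ℝ) + 1) := by positivity
      linarith
    constructor
    · intro a ha
      obtain ⟨b, hb, hb2⟩ := exists_dist_lt_of_hausdorffDist_lt ha hlt
        ConvexBody.hausdorffEDist_ne_top
      exact ⟨b, hb, by rw [← dist_eq_norm]; exact hb2.le⟩
    · intro b hb
      obtain ⟨a, ha, ha2⟩ := exists_dist_lt_of_hausdorffDist_lt' hb hlt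
        ConvexBody.hausdorffEDist_ne_top
      exact ⟨a, ha, by rw [← dist_eq_norm, dist_comm]; exact ha2.le⟩
  have h := φ_tendsto (fun j => isB (K j)) (isB L) hc hδ
  rw [tendsto_iff_dist_tendsto_zero] at h ⊢
  refine h.congr fun j => ?_
  show _ = hausdorffDist (Phi (K j) : Set Rep.W) (Phi L : Set Rep.W)
  rw [Phi_coe, Phi_coe, hausdorffDist_singleton]

lemma Phi_nontriv : IsNontrivialMap Phi := by
  refine ⟨⟨⟨closedBall (0 : V 4) 1, convex_closedBall _ _, isCompact_closedBall _ _,
    ⟨0, by simp⟩⟩, (isB_ball one_pos).zero⟩, ?_⟩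
  rw [Phi_coe]
  intro h
  rw [singleton_eq_singleton_iff] at h
  exact φ_ball_ne h

/-- There is an irreducible rational representation `ρ` of `SL(4,ℝ)`, of highest weight
`2ε₁ + 2ε₂`, which is not admissible but admits a non-trivial invariant continuous Minkowski
valuation `K₀(V) → K(W)`. -/
theorem result : ∃ (W : Type) (_ : NormedAddCommGroup W) (_ : NormedSpace ℝ W)
    (_ : FiniteDimensional ℝ W) (ρ : Representation ℝ (SL 4) W),
    IsRational ρ ∧ IsIrred ρ ∧ HasHighestWeight ρ ![2, 2, 0, 0] ∧ ¬ IsAdmissible ρ ∧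
    ∃ Φ : K0 4 → ConvexBody W, Continuous Φ ∧ IsMinkowskiValuation Φ ∧ IsInvariantMap ρ Φ ∧
      IsNontrivialMap Φ :=
  ⟨Rep.W, inferInstance, inferInstance, inferInstance, Rep.rho, Rep.rho_rational, Rep.rho_isIrred,
    Rep.rho_highest, Rep.rho_not_admissible, Phi, Phi_cont, Phi_val, Phi_inv, Phi_nontriv⟩

end Pool.Agent.Results.MP_05553e_gt.NonAdmissible
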